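import Mathlib

open MeasureTheory ProbabilityTheory Filter Topology Real Finset

namespace Pool.Agent.Results.MP_78f804_pr.NoLimit

/-- All sums of finite nonempty subsets of A. -/
def sums (A : Set ℕ) : Set ℕ := {m | ∃ F : Finset ℕ, F.Nonempty ∧ (F : Set ℕ) ⊆ A ∧ ∑ a ∈ F, a = m}

/-- The normalized count sqrt(log n) |Σ(A) ∩ [n]| / n. -/
noncomputable def dens (A : Set ℕ) (n : ℕ) : ℝ :=
  √(log n) * ((sums A ∩ Set.Icc 1 n).ncard : ℝ) / n

lemma gap {A : Set ℕ} {n : ℕ} (h1 : ∀ i ∈ Ioc n (4 * n), i ∉ A) (w : ℕ → ℝ) (w0 : ∀ i, 0 ≤ w i)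
    (hw : ∀ i ∈ A, w i = i) (h0 : 0 ∉ A) (h2 : ∑ i ∈ Ioc 0 n, w i < 3 * n) :
    sums A ∩ Set.Icc 1 (4 * n) = sums A ∩ Set.Icc 1 (3 * n) := by
  refine Set.Subset.antisymm ?_ (Set.inter_subset_inter_right _ (Set.Icc_subset_Icc_right (by omega)))
  rintro _ ⟨⟨F, hF, hA, rfl⟩, h3, h4⟩
  refine ⟨⟨F, hF, hA, rfl⟩, h3, ?_⟩
  have h5 : F ⊆ Ioc 0 n := fun a ha => by
    have := (single_le_sum (f := fun a => a) (fun _ _ => Nat.zero_le _) ha).trans h4
    have h6 := h1 a
    have h7 : a ≠ 0 := fun e => h0 (e ▸ hA ha)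
    simp only [mem_Ioc] at h6 ⊢
    by_contra hc
    exact h6 (by omega) (hA ha)
  have h6 := sum_le_sum_of_subset_of_nonneg (f := w) h5 fun i _ _ => w0 i
  rw [sum_congr rfl fun a ha => hw a (hA ha)] at h6
  have h7 : ((∑ a ∈ F, a : ℕ) : ℝ) ≤ (3 * n : ℕ) := by push_cast; exact h6.trans h2.le
  exact_mod_cast h7

lemma ev {A : Set ℕ} {C : ℝ} (hC : 0 < C) (h : Tendsto (dens A) atTop (𝓝 C)) :
    ∀ᶠ n in atTop, sums A ∩ Set.Icc 1 (4 * n) ≠ sums A ∩ Set.Icc 1 (3 * n) := by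
  have h1 : ∀ k, 0 < k → Tendsto (fun n => dens A (k * n)) atTop (𝓝 C) := fun k hk =>
    h.comp (tendsto_id.const_mul_atTop' hk)
  have h2 := ((h1 4 (by norm_num)).sub ((h1 3 (by norm_num)).const_mul (15 / 16))).eventually
    (lt_mem_nhds (a := 0) (by linarith))
  filter_upwards [h2, eventually_ge_atTop 1] with n h3 hn e
  have n1 : (1 : ℝ) ≤ n := by exact_mod_cast hn
  have h4 : √(log (4 * n : ℕ)) ≤ 5 / 4 * √(log (3 * n : ℕ)) := by
    have l0 : 0 ≤ log (3 * n : ℕ) := log_natCast_nonneg _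
    have : 2 * log (4 * n : ℕ) ≤ 3 * log (3 * n : ℕ) := by
      have := log_le_log (x := ((4 * n : ℕ) : ℝ) ^ 2) (y := ((3 * n : ℕ) : ℝ) ^ 3) (by positivity)
        (by push_cast; nlinarith [sq_nonneg (n : ℝ)])
      simpa only [log_pow, Nat.cast_ofNat] using this
    rw [sqrt_le_left (by positivity), mul_pow, sq_sqrt l0]
    linarith
  simp only [dens, e] at h3
  refine absurd h3 (not_lt.2 ?_)
  rw [sub_nonpos]
  calc _ ≤ 5 / 4 * √(log (3 * n : ℕ)) * ((sums A ∩ Set.Icc 1 (3 * n)).ncard : ℝ) / (4 * n : ℕ) := by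
        gcongr
    _ = _ := by push_cast; field_simp; ring

lemma prod_low {p : ℕ → ℝ} {n : ℕ} (hn : 2 ≤ n) (hp : ∀ i, n < i → p i ≤ 2 / i) (k : ℕ) :
    (n : ℝ) * (n - 1) ≤ (n + k) * (n + k - 1) * ∏ i ∈ Ioc n (n + k), (1 - p i) := by
  have n2 : (2 : ℝ) ≤ n := by exact_mod_cast hn
  induction k with
  | zero => simp
  | succ k ih =>
    have k0 : (0 : ℝ) ≤ k := by positivity
    have h1 := hp (n + k + 1) (by omega)
    rw [le_div_iff₀ (by positivity)] at h1
    have h2 : 0 ≤ (n + k : ℝ) * ∏ i ∈ Ioc n (n + k), (1 - p i) := by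
      by_contra h
      nlinarith
    rw [← add_assoc, prod_Ioc_succ_top (by omega)]
    push_cast at h1 ⊢
    nlinarith [mul_le_mul_of_nonneg_left h1 h2]

theorem result {Ω : Type*} [MeasurableSpace Ω] (P : Measure Ω) [IsProbabilityMeasure P]
    (X : ℕ → Ω → Bool) (hm : ∀ i, Measurable (X i)) (hX : iIndepFun X P)
    (hp : ∀ i : ℕ, 1 ≤ i → P.real {ω | X i ω = true} = min 1 (1 / (i * log 2))) :
    ¬ ∀ᵐ ω ∂P, ∃ C : ℝ, 0 < C ∧ Tendsto (dens {i | 1 ≤ i ∧ X i ω = true}) atTop (𝓝 C) := by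
  intro h
  have p1 : ∀ i : ℕ, 1 ≤ i → i * P.real (X i ⁻¹' {true}) ≤ 3 / 2 := fun i hi => by
    have i1 : (0 : ℝ) < i := by exact_mod_cast hi
    have h1 : P.real (X i ⁻¹' {true}) ≤ 1 / (i * log 2) := (hp i hi).trans_le (min_le_right _ _)
    rw [le_div_iff₀ (by positivity)] at h1
    nlinarith [log_two_gt_d9, mul_nonneg i1.le (measureReal_nonneg (μ := P) (s := X i ⁻¹' {true}))]
  set B : ℕ → Set Ω := fun n => ⋂ i ∈ Ioc n (4 * n), X i ⁻¹' {false} with hB
  have mB : ∀ n, MeasurableSet (B n) := fun n =>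
    measurableSet_biInter _ fun i _ => hm i (measurableSet_singleton _)
  have mX : ∀ i, MeasurableSet (X i ⁻¹' {true}) := fun i => hm i (measurableSet_singleton _)
  have b1 : ∀ n, P (B n) = ∏ i ∈ Ioc n (4 * n), P (X i ⁻¹' {false}) := fun n =>
    hX.measure_inter_preimage_eq_mul _ fun _ _ => measurableSet_singleton _
  have b2 : ∀ n j, j ≤ n → P.real (X j ⁻¹' {true} ∩ B n) = P.real (X j ⁻¹' {true}) * P.real (B n) :=
    fun n j hj => by
    have hn : j ∉ Ioc n (4 * n) := by simp; omega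
    have := hX.measure_inter_preimage_eq_mul (insert j (Ioc n (4 * n)))
      (sets := fun i => {decide (i = j)}) fun _ _ => measurableSet_singleton _
    have e : ∀ i ∈ Ioc n (4 * n), decide (i = j) = false := fun i hi => by
      simp only [mem_Ioc] at hi; simp; omega
    rw [set_biInter_insert, prod_insert hn, prod_congr rfl fun i hi => by rw [e i hi],
      Set.iInter₂_congr fun i hi => by rw [e i hi], ← b1] at this
    simp only [decide_true] at this
    rw [measureReal_def, measureReal_def, measureReal_def, ← ENNReal.toReal_mul, ← this]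
  have b3 : ∀ n, 2 ≤ n → 1 / 32 ≤ P.real (B n) := fun n hn => by
    have n2 : (2 : ℝ) ≤ n := by exact_mod_cast hn
    have h1 := prod_low (p := fun i => P.real (X i ⁻¹' {true})) hn (fun i hi => by
      have := p1 i (by omega)
      rw [le_div_iff₀ (by exact_mod_cast (by omega : 0 < i))]; linarith) (3 * n)
    have h2 : P.real (B n) = ∏ i ∈ Ioc n (n + 3 * n), (1 - P.real (X i ⁻¹' {true})) := by
      rw [measureReal_def, b1, ENNReal.toReal_prod, show n + 3 * n = 4 * n by ring]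
      refine prod_congr rfl fun i _ => ?_
      rw [← probReal_compl_eq_one_sub (mX i)]
      congr 2; ext; simp
    rw [← h2] at h1
    push_cast at h1
    by_contra hc
    nlinarith [mul_le_mul_of_nonneg_left (not_le.1 hc).le (by nlinarith : 0 ≤ (n + 3 * n : ℝ) * (n + 3 * n - 1))]
  set S : ℕ → Ω → ℝ := fun n ω => ∑ i ∈ Ioc 0 n, (X i ⁻¹' {true} ∩ B n).indicator (fun _ => (i : ℝ)) ω
  have iS : ∀ n i, Integrable ((X i ⁻¹' {true} ∩ B n).indicator fun _ => (i : ℝ)) P := fun n i =>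
    (integrable_const _).indicator ((mX i).inter (mB n))
  have nS : ∀ n i ω, 0 ≤ (X i ⁻¹' {true} ∩ B n).indicator (fun _ => (i : ℝ)) ω := fun n i ω =>
    Set.indicator_nonneg (fun _ _ => by positivity) _
  have mS : ∀ n : ℕ, MeasurableSet {ω | 3 * (n : ℝ) ≤ S n ω} := fun n => measurableSet_le measurable_const
    (Finset.measurable_sum _ fun i _ => measurable_const.indicator ((mX i).inter (mB n)))
  have b4 : ∀ n, 2 ≤ n → 1 / 64 ≤ P.real (B n \ {ω | 3 * (n : ℝ) ≤ S n ω}) := fun n hn => by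
    have n2 : (2 : ℝ) ≤ n := by exact_mod_cast hn
    have h1 := mul_meas_ge_le_integral_of_nonneg (μ := P) (f := S n)
      (ae_of_all _ fun ω => sum_nonneg fun i _ => nS n i ω) (integrable_finsetSum _ fun i _ => iS n i)
      (3 * n)
    have h2 : ∫ ω, S n ω ∂P ≤ ∑ i ∈ Ioc 0 n, 3 / 2 * P.real (B n) := by
      rw [integral_finsetSum _ fun i _ => iS n i]
      refine sum_le_sum fun i hi => ?_
      rw [mem_Ioc] at hi
      rw [integral_indicator_const _ ((mX i).inter (mB n)), b2 n i hi.2, smul_eq_mul]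
      nlinarith [mul_le_mul_of_nonneg_right (p1 i hi.1) (measureReal_nonneg (μ := P) (s := B n))]
    simp only [sum_const, Nat.card_Ioc, nsmul_eq_mul, Nat.sub_zero] at h2
    have h3 := le_measureReal_sdiff (μ := P) (s₁ := B n) (s₂ := {ω | 3 * (n : ℝ) ≤ S n ω})
    nlinarith [b3 n hn]
  have h5 := tendsto_measure_of_ae_tendsto_indicator_of_isFiniteMeasure atTop (μ := P)
    MeasurableSet.empty (fun n => (mB n).diff (mS n)) (by
      filter_upwards [h] with ω ⟨C, hC, hω⟩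
      filter_upwards [ev hC hω] with n hn
      refine iff_of_false (fun ⟨h1, h2⟩ => hn (gap (fun i hi hA => ?_) _ (fun i => nS n i ω)
        (fun i hi => Set.indicator_of_mem (s := X i ⁻¹' {true} ∩ B n) ⟨hi.2, h1⟩ _) 
        (by simp) (not_le.1 h2))) id
      have := Set.mem_iInter₂.1 h1 i hi
      simp [hA.2] at this)
  have h6 := ge_of_tendsto ((ENNReal.tendsto_toReal (by simp)).comp h5)
    ((eventually_ge_atTop 2).mono b4)
  norm_num at h6

end Pool.Agent.Results.MP_78f804_pr.NoLimit
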